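import Pool.Agent.MP_66cee2_co.B82.Spec
import Pool.Agent.MP_66cee2_co.B.H30Ball

/-
Cosine transform of the ball kernel.
-/

namespace Pool.Agent.MP_66cee2_co.B82

open MeasureTheory Set Filter Metric Topology Pool.Agent.MP_66cee2_co.X
  Pool.Agent.MP_66cee2_co.B
open scoped RealInnerProductSpace

namespace Ctx

/-- the constant. -/
noncomputable def ka (l : ℕ) : ℝ := ∫ y : E (2 * l + 2), (max (1 - ‖y‖ ^ 2) 0) ^ (l + 1)

theorem ka_nonneg (l : ℕ) : 0 ≤ ka l := integral_nonneg fun _ => by positivity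

theorem inner_int (l : ℕ) (A : ℝ) :
    ∫ y : E (2 * l + 2), (max (A - ‖y‖ ^ 2) 0) ^ (l + 1) = ka l * (max A 0) ^ (2 * l + 2) := by
  rcases le_or_gt A 0 with hA | hA
  · have : ∀ y : E (2 * l + 2), max (A - ‖y‖ ^ 2) 0 = 0 := fun y =>
      max_eq_right (by nlinarith [sq_nonneg ‖y‖])
    simp [this, max_eq_right hA]
  · have h := Measure.integral_comp_smul (μ := (volume : Measure (E (2 * l + 2))))
      (fun y => (max (A - ‖y‖ ^ 2) 0) ^ (l + 1)) (√A)
    have e : ∀ y : E (2 * l + 2), (max (A - ‖√A • y‖ ^ 2) 0) ^ (l + 1) =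
        A ^ (l + 1) * (max (1 - ‖y‖ ^ 2) 0) ^ (l + 1) := by
      intro y
      rw [norm_smul, mul_pow, Real.norm_eq_abs, sq_abs, Real.sq_sqrt hA.le, ← mul_pow,
        mul_max_of_nonneg _ _ hA.le, mul_zero, mul_sub, mul_one]
    have hk : Module.finrank ℝ (E (2 * l + 2)) = 2 * (l + 1) := by simp; ring
    simp only [e] at h
    rw [integral_const_mul, hk, pow_mul, Real.sq_sqrt hA.le, smul_eq_mul,
      abs_of_pos (by positivity)] at h
    have hp : A ^ (l + 1) ≠ 0 := by positivity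
    rw [max_eq_left hA.le, ka]
    have h2 := congrArg (fun t => A ^ (l + 1) * t) h
    simp only [← mul_assoc, mul_inv_cancel₀ hp, one_mul] at h2
    rw [← h2]
    ring

theorem ka_le (l : ℕ) :
    ka l * 4 ^ l ≤ (2 * l + 2) * (Real.pi ^ (l + 1) / ((l + 1).factorial : ℝ)) := by
  have hk : Module.finrank ℝ (E (2 * l + 2)) = 2 * (l + 1) := by simp; ring
  haveI : Nontrivial (E (2 * l + 2)) := by
    apply Module.nontrivial_of_finrank_pos (R := ℝ)
    rw [hk]; omega
  have h := integral_fun_norm_addHaar (volume : Measure (E (2 * l + 2)))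
    (fun r : ℝ => (max (1 - r ^ 2) 0) ^ (l + 1))
  have hv : (volume : Measure (E (2 * l + 2))).real (ball 0 1) =
      Real.pi ^ (l + 1) / ((l + 1).factorial : ℝ) := by
    rw [Measure.real, InnerProductSpace.volume_ball_of_dim_even hk]
    simp only [ENNReal.ofReal_one, one_pow, one_mul]
    exact ENNReal.toReal_ofReal (by positivity)
  have hi : ∫ r in Ioi (0 : ℝ), r ^ (2 * (l + 1) - 1) • (max (1 - r ^ 2) 0) ^ (l + 1) ≤
      (4 ^ l)⁻¹ := by
    have h1 : ∫ r in Ioi (0 : ℝ), (Ioc (0 : ℝ) 1).indicator (fun _ => ((4 : ℝ) ^ l)⁻¹) r =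
        (4 ^ l)⁻¹ := by
      rw [integral_indicator measurableSet_Ioc, Measure.restrict_restrict measurableSet_Ioc,
        inter_eq_left.2 Ioc_subset_Ioi_self]
      simp
    rw [← h1]
    refine integral_mono_of_nonneg ?_ ?_ ?_
    · filter_upwards [ae_restrict_mem measurableSet_Ioi] with r hr
      have : (0 : ℝ) < r := hr
      simp only [smul_eq_mul, Pi.zero_apply]
      positivity
    · exact ((integrable_indicator_iff measurableSet_Ioc).2 (integrableOn_const
        (by simp))).integrableOn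
    · filter_upwards [ae_restrict_mem measurableSet_Ioi] with r hr
      have r0 : (0 : ℝ) < r := hr
      by_cases h1 : r ≤ 1
      · rw [indicator_of_mem (show r ∈ Ioc (0 : ℝ) 1 from ⟨r0, h1⟩), smul_eq_mul,
          max_eq_left (by nlinarith), show 2 * (l + 1) - 1 = 2 * l + 1 by omega]
        have a0 : 0 ≤ 1 - r ^ 2 := by nlinarith
        have a1 : r ^ 2 * (1 - r ^ 2) ≤ 4⁻¹ := by nlinarith [sq_nonneg (2 * r ^ 2 - 1)]
        have a2 : r * (1 - r ^ 2) ≤ 1 := by nlinarith
        calc r ^ (2 * l + 1) * (1 - r ^ 2) ^ (l + 1)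
            = (r ^ 2 * (1 - r ^ 2)) ^ l * (r * (1 - r ^ 2)) := by
              rw [mul_pow, ← pow_mul]; ring
          _ ≤ (4⁻¹) ^ l * 1 := by gcongr
          _ = _ := by rw [mul_one, inv_pow]
      · rw [indicator_of_notMem (fun h => h1 h.2), max_eq_right (by nlinarith [not_le.1 h1])]
        simp
  rw [hk, hv] at h
  rw [ka, h, nsmul_eq_mul, smul_eq_mul]
  have hp : (0 : ℝ) < 4 ^ l := by positivity
  have hv0 : 0 ≤ Real.pi ^ (l + 1) / ((l + 1).factorial : ℝ) := by positivity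
  have h3 := mul_le_mul_of_nonneg_right hi hp.le
  rw [inv_mul_cancel₀ hp.ne'] at h3
  have h4 := mul_le_mul_of_nonneg_left h3 hv0
  push_cast
  nlinarith [mul_le_mul_of_nonneg_left h4 (show (0 : ℝ) ≤ 2 * (l + 1) by positivity)]

theorem vol_ge (l : ℕ) : Real.pi ^ (l + 1) / ((l + 1).factorial : ℝ) ≤
    (l + 2) * volume.real (ball (0 : E (2 * l + 3)) 1) := by
  have h := H30.ball_cos l 0 1 one_pos
  simp only [inner_zero_left, Real.cos_zero, norm_zero, zero_mul, one_mul, one_pow, mul_one,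
    setIntegral_const, smul_eq_mul] at h
  have h1 : ∫ u in (0 : ℝ)..1, (1 - u) ^ (l + 1) = 1 / (l + 2) := by
    rw [intervalIntegral.integral_comp_sub_left (fun u : ℝ => u ^ (l + 1)) 1, integral_pow]
    simp only [sub_zero, sub_self, one_pow]
    push_cast
    rw [zero_pow (by omega)]
    ring
  have h2 : ∫ u in (0 : ℝ)..1, (1 - u) ^ (l + 1) ≤ ∫ u in (0 : ℝ)..1, (1 - u ^ 2) ^ (l + 1) := by
    refine intervalIntegral.integral_mono_on zero_le_one (Continuous.intervalIntegrable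
      (by fun_prop) _ _) (Continuous.intervalIntegrable (by fun_prop) _ _) fun u hu => ?_
    exact pow_le_pow_left₀ (by linarith [hu.2]) (by nlinarith [hu.1, hu.2]) _
  have h3 : ∫ u in (0 : ℝ)..1, (1 - u ^ 2) ^ (l + 1) ≤
      ∫ u in (-1 : ℝ)..1, (1 - u ^ 2) ^ (l + 1) := by
    refine intervalIntegral.integral_mono_interval (by norm_num) zero_le_one le_rfl ?_
      (Continuous.intervalIntegrable (by fun_prop) _ _)
    filter_upwards [ae_restrict_mem measurableSet_Ioc] with u hu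
    exact pow_nonneg (by nlinarith [hu.1, hu.2]) _
  have hv0 : 0 ≤ Real.pi ^ (l + 1) / ((l + 1).factorial : ℝ) := by positivity
  have h4 : (1 : ℝ) ≤ (l + 2) * ∫ u in (-1 : ℝ)..1, (1 - u ^ 2) ^ (l + 1) := by
    have : (1 : ℝ) / (l + 2) ≤ _ := h1 ▸ h2.trans h3
    rwa [div_le_iff₀' (by positivity)] at this
  rw [h]
  nlinarith [mul_le_mul_of_nonneg_left h4 hv0]

theorem cont (l : ℕ) : Continuous (Gp l) := by
  unfold Gp
  fun_prop

theorem supp (l : ℕ) : HasCompactSupport (Gp l) := by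
  refine HasCompactSupport.intro (isCompact_closedBall 0 ro) fun w hw => ?_
  rw [mem_closedBall_zero_iff, not_le] at hw
  have : (0 : ℝ) < ro := by norm_num [ro]
  rw [Gp, max_eq_right (by nlinarith), zero_pow (by omega)]

theorem coord (l : ℕ) (g : ℝ → ℝ) (hg : Continuous g) :
    ∫ w : E (2 * l + 3), Gp l w * g (w 0) =
      ∫ s : ℝ, ka l * (g s * (max (ro ^ 2 - s ^ 2) 0) ^ (2 * l + 2)) := by
  have hint : Integrable fun w : E (2 * l + 3) => Gp l w * g (w 0) :=
    ((cont l).mul (hg.comp (by fun_prop))).integrable_of_hasCompactSupport (supp l).mul_right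
  have m1 := PiLp.volume_preserving_toLp (Fin (2 * l + 3))
  have m2 := (volume_preserving_piFinSuccAbove (fun _ : Fin (2 * l + 2 + 1) => ℝ) 0).symm
  have e1 : MeasurableEmbedding (@WithLp.toLp 2 (Fin (2 * l + 3) → ℝ)) :=
    (MeasurableEquiv.toLp 2 _).measurableEmbedding
  have m3 := PiLp.volume_preserving_toLp (Fin (2 * l + 2))
  have e3 : MeasurableEmbedding (@WithLp.toLp 2 (Fin (2 * l + 2) → ℝ)) :=
    (MeasurableEquiv.toLp 2 _).measurableEmbedding
  have i1 := (m1.integrable_comp_emb e1).2 hint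
  have i2 := (m2.integrable_comp_emb (MeasurableEquiv.measurableEmbedding _)).2 i1
  rw [← m1.integral_comp e1, ← m2.integral_comp']
  have key : ∀ p : ℝ × (Fin (2 * l + 2) → ℝ),
      (fun w : E (2 * l + 3) => Gp l w * g (w 0)) (WithLp.toLp 2
        ((MeasurableEquiv.piFinSuccAbove (fun _ : Fin (2 * l + 2 + 1) => ℝ) 0).symm p)) =
      (max (ro ^ 2 - p.1 ^ 2 - ‖(WithLp.toLp 2 p.2 : E (2 * l + 2))‖ ^ 2) 0) ^ (l + 1) * g p.1 := by
    rintro ⟨s, y⟩
    simp only [Gp, EuclideanSpace.norm_sq_eq]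
    rw [Fin.sum_univ_succ]
    simp only [MeasurableEquiv.piFinSuccAbove_symm_apply, Fin.insertNthEquiv, Equiv.coe_fn_mk,
      Fin.insertNth_zero', Fin.cons_zero, Fin.cons_succ, Real.norm_eq_abs, sq_abs, sub_sub]
  have i3 : Integrable (fun p : ℝ × (Fin (2 * l + 2) → ℝ) =>
      (max (ro ^ 2 - p.1 ^ 2 - ‖(WithLp.toLp 2 p.2 : E (2 * l + 2))‖ ^ 2) 0) ^ (l + 1) * g p.1)
      (volume.prod volume) := by
    refine i2.congr (Filter.Eventually.of_forall fun p => ?_)
    exact key p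
  refine (integral_congr_ae (Filter.Eventually.of_forall key)).trans ?_
  rw [Measure.volume_eq_prod, integral_prod _ i3]
  refine integral_congr_ae (Filter.Eventually.of_forall fun s => ?_)
  simp only
  rw [integral_mul_const, m3.integral_comp e3
    (fun y => (max (ro ^ 2 - s ^ 2 - ‖y‖ ^ 2) 0) ^ (l + 1)), inner_int]
  ring

end Ctx

theorem sCt : SCt := by
  intro l
  refine ⟨Ctx.cont l, (Ctx.cont l).integrable_of_hasCompactSupport (Ctx.supp l), Ctx.ka l,
    Ctx.ka_nonneg l, ?_, fun ξ => ?_⟩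
  · refine (Ctx.ka_le l).trans ?_
    rw [mul_assoc]
    exact mul_le_mul_of_nonneg_left (Ctx.vol_ge l) (by positivity)
  · set e : E (2 * l + 3) := EuclideanSpace.single 0 ‖ξ‖ with he
    have hn : ‖e‖ = ‖ξ‖ := by simp [he]
    set R := (ℝ ∙ (e - ξ))ᗮ.reflection with hR
    have hRe : R e = ξ := Submodule.reflection_sub hn
    have h1 := R.measurePreserving.integral_comp R.toHomeomorph.measurableEmbedding
      (fun w => Gp l w * Real.cos ⟪ξ, w⟫)
    have h2 : ∀ w, ⟪ξ, R w⟫ = ‖ξ‖ * w 0 := by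
      intro w
      conv_lhs => rw [← hRe]
      rw [R.inner_map_map, he, EuclideanSpace.inner_single_left]; simp
    have h3 : ∀ w, Gp l (R w) = Gp l w := fun w => by rw [Gp, Gp, R.norm_map]
    rw [ct, ← h1]
    simp_rw [h2, h3]
    rw [Ctx.coord l (fun s => Real.cos (‖ξ‖ * s)) (by fun_prop), integral_const_mul]

end Pool.Agent.MP_66cee2_co.B82
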