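import Mathlib

/-
Cosine transform of a radial function in odd dimension.
-/

namespace Pool.Agent.MP_66cee2_co.B82.Rad

open MeasureTheory Set Filter Metric Topology
open scoped RealInnerProductSpace

theorem inner_int (l : ℕ) (f : ℝ → ℝ) :
    ∫ y : EuclideanSpace ℝ (Fin (2 * l + 2)), f (‖y‖ ^ 2) =
      Real.pi ^ (l + 1) / (l.factorial : ℝ) * ∫ s in Ioi (0 : ℝ), s ^ l * f s := by
  have hk : Module.finrank ℝ (EuclideanSpace ℝ (Fin (2 * l + 2))) = 2 * (l + 1) := by simp; ring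
  have : Nontrivial (EuclideanSpace ℝ (Fin (2 * l + 2))) := by
    apply Module.nontrivial_of_finrank_pos (R := ℝ)
    rw [hk]; omega
  have h := integral_fun_norm_addHaar (volume : Measure (EuclideanSpace ℝ (Fin (2 * l + 2))))
    (fun r : ℝ => f (r ^ 2))
  have hv : (volume : Measure (EuclideanSpace ℝ (Fin (2 * l + 2)))).real (ball 0 1) =
      Real.pi ^ (l + 1) / ((l + 1).factorial : ℝ) := by
    rw [Measure.real, InnerProductSpace.volume_ball_of_dim_even hk]
    simp only [ENNReal.ofReal_one, one_pow, one_mul]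
    exact ENNReal.toReal_ofReal (by positivity)
  have h2 := integral_comp_rpow_Ioi_of_pos (g := fun s : ℝ => s ^ l * f s) (p := 2) two_pos
  have h3 : ∫ x in Ioi (0 : ℝ), ((2 : ℝ) * x ^ ((2 : ℝ) - 1)) •
      (fun s : ℝ => s ^ l * f s) (x ^ (2 : ℝ)) =
      2 * ∫ r in Ioi (0 : ℝ), r ^ (2 * (l + 1) - 1) • f (r ^ 2) := by
    rw [← integral_const_mul]
    refine setIntegral_congr_fun measurableSet_Ioi fun x _ => ?_
    simp only [smul_eq_mul, Real.rpow_two]
    rw [show (2 : ℝ) - 1 = 1 by norm_num, Real.rpow_one,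
      show 2 * (l + 1) - 1 = 2 * l + 1 by omega, ← pow_mul]
    ring
  rw [hk, hv] at h
  rw [h, ← h2, h3, nsmul_eq_mul, smul_eq_mul, Nat.factorial_succ]
  have : (l.factorial : ℝ) ≠ 0 := by positivity
  push_cast
  field_simp

variable {f : ℝ → ℝ} {Q : ℝ}

theorem cont (d : ℕ) (hf : Continuous f) :
    Continuous fun w : EuclideanSpace ℝ (Fin d) => f (‖w‖ ^ 2) := hf.comp (by fun_prop)

theorem supp (d : ℕ) (h0 : ∀ s, Q ≤ s → f s = 0) :
    HasCompactSupport fun w : EuclideanSpace ℝ (Fin d) => f (‖w‖ ^ 2) := by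
  refine HasCompactSupport.intro (isCompact_closedBall 0 (|Q| + 1)) fun w hw => ?_
  rw [mem_closedBall_zero_iff, not_le] at hw
  exact h0 _ (by nlinarith [le_abs_self Q, abs_nonneg Q])

theorem integrable (d : ℕ) (hf : Continuous f) (h0 : ∀ s, Q ≤ s → f s = 0) :
    Integrable fun w : EuclideanSpace ℝ (Fin d) => f (‖w‖ ^ 2) :=
  (cont d hf).integrable_of_hasCompactSupport (supp d h0)

theorem coord (l : ℕ) (hf : Continuous f) (h0 : ∀ s, Q ≤ s → f s = 0) (g : ℝ → ℝ)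
    (hg : Continuous g) :
    ∫ w : EuclideanSpace ℝ (Fin (2 * l + 3)), f (‖w‖ ^ 2) * g (w 0) =
      ∫ u : ℝ, g u * (Real.pi ^ (l + 1) / (l.factorial : ℝ) *
        ∫ s in Ioi (0 : ℝ), s ^ l * f (u ^ 2 + s)) := by
  have hint : Integrable fun w : EuclideanSpace ℝ (Fin (2 * l + 3)) => f (‖w‖ ^ 2) * g (w 0) :=
    ((cont _ hf).mul (hg.comp (by fun_prop))).integrable_of_hasCompactSupport
      (supp _ h0).mul_right
  have m1 := PiLp.volume_preserving_toLp (Fin (2 * l + 3))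
  have m2 := (volume_preserving_piFinSuccAbove (fun _ : Fin (2 * l + 2 + 1) => ℝ) 0).symm
  have e1 : MeasurableEmbedding (@WithLp.toLp 2 (Fin (2 * l + 3) → ℝ)) :=
    (MeasurableEquiv.toLp 2 _).measurableEmbedding
  have m3 := PiLp.volume_preserving_toLp (Fin (2 * l + 2))
  have e3 : MeasurableEmbedding (@WithLp.toLp 2 (Fin (2 * l + 2) → ℝ)) :=
    (MeasurableEquiv.toLp 2 _).measurableEmbedding
  have i1 := (m1.integrable_comp_emb e1).2 hint
  have i2 := (m2.integrable_comp_emb (MeasurableEquiv.measurableEmbedding _)).2 i1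
  rw [← m1.integral_comp e1, ← m2.integral_comp']
  have key : ∀ p : ℝ × (Fin (2 * l + 2) → ℝ),
      (fun w : EuclideanSpace ℝ (Fin (2 * l + 3)) => f (‖w‖ ^ 2) * g (w 0)) (WithLp.toLp 2
        ((MeasurableEquiv.piFinSuccAbove (fun _ : Fin (2 * l + 2 + 1) => ℝ) 0).symm p)) =
      f (p.1 ^ 2 + ‖(WithLp.toLp 2 p.2 : EuclideanSpace ℝ (Fin (2 * l + 2)))‖ ^ 2) * g p.1 := by
    rintro ⟨s, y⟩
    simp only [EuclideanSpace.norm_sq_eq]
    rw [Fin.sum_univ_succ]
    simp only [MeasurableEquiv.piFinSuccAbove_symm_apply, Fin.insertNthEquiv, Equiv.coe_fn_mk,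
      Fin.insertNth_zero', Fin.cons_zero, Fin.cons_succ, Real.norm_eq_abs, sq_abs]
  have i3 : Integrable (fun p : ℝ × (Fin (2 * l + 2) → ℝ) =>
      f (p.1 ^ 2 + ‖(WithLp.toLp 2 p.2 : EuclideanSpace ℝ (Fin (2 * l + 2)))‖ ^ 2) * g p.1)
      (volume.prod volume) := by
    refine i2.congr (Filter.Eventually.of_forall fun p => ?_)
    exact key p
  refine (integral_congr_ae (Filter.Eventually.of_forall key)).trans ?_
  rw [Measure.volume_eq_prod, integral_prod _ i3]
  refine integral_congr_ae (Filter.Eventually.of_forall fun s => ?_)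
  simp only
  rw [integral_mul_const, m3.integral_comp e3 (fun y => f (s ^ 2 + ‖y‖ ^ 2)),
    inner_int l fun t => f (s ^ 2 + t)]
  ring

/-- the cosine transform of a radial function. -/
theorem radial (l : ℕ) (hf : Continuous f) (h0 : ∀ s, Q ≤ s → f s = 0)
    (ξ : EuclideanSpace ℝ (Fin (2 * l + 3))) :
    ∫ w : EuclideanSpace ℝ (Fin (2 * l + 3)), f (‖w‖ ^ 2) * Real.cos ⟪ξ, w⟫ =
      ∫ u : ℝ, Real.cos (‖ξ‖ * u) * (Real.pi ^ (l + 1) / (l.factorial : ℝ) *
        ∫ s in Ioi (0 : ℝ), s ^ l * f (u ^ 2 + s)) := by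
  set e : EuclideanSpace ℝ (Fin (2 * l + 3)) := EuclideanSpace.single 0 ‖ξ‖ with he
  have hn : ‖e‖ = ‖ξ‖ := by simp [he]
  set R := (ℝ ∙ (e - ξ))ᗮ.reflection with hR
  have hRe : R e = ξ := Submodule.reflection_sub hn
  have h1 := R.measurePreserving.integral_comp R.toHomeomorph.measurableEmbedding
    (fun w => f (‖w‖ ^ 2) * Real.cos ⟪ξ, w⟫)
  have h2 : ∀ w, ⟪ξ, R w⟫ = ‖ξ‖ * w 0 := by
    intro w
    conv_lhs => rw [← hRe]
    rw [R.inner_map_map, he, EuclideanSpace.inner_single_left]; simp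
  rw [← h1]
  simp_rw [h2, R.norm_map]
  exact coord l hf h0 (fun s => Real.cos (‖ξ‖ * s)) (by fun_prop)

end Pool.Agent.MP_66cee2_co.B82.Rad
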