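import Pool.Agent.MP_66cee2_co.B82.Spec

namespace Pool.Agent.MP_66cee2_co.B82

open MeasureTheory Set Filter Metric Topology Pool.Agent.MP_66cee2_co.X

namespace Dens2x

variable {d : ℕ}

theorem measA {Y : Set (E d)} (hY : MeasurableSet Y) (t : ℝ) :
    MeasurableSet {p : E d × E d | p.2 ∈ Y ∧ dist p.2 p.1 < t} :=
  (measurable_snd hY).inter
    (measurableSet_lt (measurable_snd.dist measurable_fst) measurable_const)

theorem measF {Y : Set (E d)} (hY : MeasurableSet Y) (t : ℝ) :
    Measurable fun z : E d => volume (Y ∩ ball z t) :=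
  measurable_measure_prodMk_left (ν := (volume : Measure (E d))) (measA hY t)

theorem lint {Y : Set (E d)} (hY : MeasurableSet Y) (t : ℝ) :
    ∫⁻ z : E d, volume (Y ∩ ball z t) = volume (ball (0 : E d) t) * volume Y := by
  have h1 := Measure.prod_apply (μ := (volume : Measure (E d))) (ν := (volume : Measure (E d)))
    (measA hY t)
  have h2 := Measure.prod_apply_symm (μ := (volume : Measure (E d)))
    (ν := (volume : Measure (E d))) (measA hY t)
  have h3 : ∀ y : E d, volume ((fun z : E d => (z, y)) ⁻¹'
      {p : E d × E d | p.2 ∈ Y ∧ dist p.2 p.1 < t}) =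
      Y.indicator (fun _ => volume (ball (0 : E d) t)) y := by
    intro y
    by_cases hy : y ∈ Y
    · rw [indicator_of_mem hy, ← Measure.addHaar_ball_center volume y t]
      congr 1
      ext z
      simp [hy, dist_comm]
    · rw [indicator_of_notMem hy]
      have : ((fun z : E d => (z, y)) ⁻¹' {p : E d × E d | p.2 ∈ Y ∧ dist p.2 p.1 < t}) = ∅ := by
        ext z
        simp [hy]
      rw [this, measure_empty]
  simp only [h3] at h2
  rw [lintegral_indicator hY, setLIntegral_const] at h2
  rw [← h2, h1]
  rfl

end Dens2x

open Dens2x in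
theorem sDens2 : SDens2 := by
  intro d Y R t ht hY hR hv
  set w := volume.real (ball (0 : E d) t) with hw
  set S := ball (0 : E d) (R + t) with hS
  set f : E d → ℝ := fun z => volume.real (Y ∩ ball z t) with hf
  have hfm : Measurable f := (measF hY t).ennreal_toReal
  have hf0 : ∀ z, 0 ≤ f z := fun z => measureReal_nonneg
  have hw0 : 0 ≤ w := measureReal_nonneg
  have hfw : ∀ z, f z ≤ w := fun z => by
    have : volume.real (ball z t) = w := by
      simp only [hw, Measure.real, Measure.addHaar_ball_center volume z t]
    rw [← this]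
    exact measureReal_mono inter_subset_right measure_ball_lt_top.ne
  have hfS : ∀ z, z ∉ S → f z = 0 := fun z hz => by
    have : Y ∩ ball z t = ∅ := by
      ext y
      simp only [mem_inter_iff, mem_empty_iff_false, iff_false, not_and]
      intro hy hyz
      apply hz
      have h1 := mem_ball.1 (hR hy)
      have h2 := mem_ball.1 hyz
      have h3 := dist_triangle_left z 0 y
      rw [hS, mem_ball]
      linarith
    simp only [hf, this, measureReal_empty]
  have hSm : MeasurableSet S := measurableSet_ball
  have hI : ∀ c : ℝ, Integrable (S.indicator fun _ => c) := fun c =>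
    (integrable_indicator_iff hSm).2 (integrableOn_const measure_ball_lt_top.ne)
  have hfi : Integrable f := by
    refine (hI w).mono' hfm.aestronglyMeasurable (Eventually.of_forall fun z => ?_)
    rw [Real.norm_of_nonneg (hf0 z)]
    by_cases hz : z ∈ S
    · rw [indicator_of_mem hz]; exact hfw z
    · rw [indicator_of_notMem hz, hfS z hz]
  have hf2 : Integrable fun z => f z ^ 2 := by
    refine (hI (w ^ 2)).mono' (hfm.pow_const 2).aestronglyMeasurable
      (Eventually.of_forall fun z => ?_)
    rw [Real.norm_of_nonneg (sq_nonneg _)]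
    by_cases hz : z ∈ S
    · rw [indicator_of_mem hz]; exact pow_le_pow_left₀ (hf0 z) (hfw z) 2
    · rw [indicator_of_notMem hz, hfS z hz]; norm_num
  have hint : ∫ z, f z = w * volume.real Y := by
    have h := integral_toReal (μ := (volume : Measure (E d))) (measF hY t).aemeasurable
      (Eventually.of_forall fun z =>
        (measure_mono inter_subset_right).trans_lt (measure_ball_lt_top (x := z) (r := t)))
    rw [lint hY t, ENNReal.toReal_mul] at h
    exact h
  have hle : ∫ z, (2 * (w / 16) * f z - S.indicator (fun _ => (w / 16) ^ 2) z) ≤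
      ∫ z, f z ^ 2 := by
    refine integral_mono ((hfi.const_mul _).sub (hI _)) hf2 fun z => ?_
    by_cases hz : z ∈ S
    · simp only [indicator_of_mem hz]
      nlinarith [sq_nonneg (f z - w / 16)]
    · simp only [indicator_of_notMem hz, hfS z hz]
      norm_num
  rw [integral_sub (hfi.const_mul _) (hI _), integral_const_mul, hint,
    integral_indicator_const _ hSm, smul_eq_mul] at hle
  have h4 : volume.real S * (w / 16) ^ 2 ≤ 16 * volume.real Y * (w / 16) ^ 2 :=
    mul_le_mul_of_nonneg_right hv (sq_nonneg _)
  change w ^ 2 * volume.real Y ≤ 16 * ∫ z, f z ^ 2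
  nlinarith

end Pool.Agent.MP_66cee2_co.B82
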