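import Pool.Agent.MP_66cee2_co.B82.Spec
import Pool.Agent.MP_66cee2_co.H12.Apx

/-
Polynomial approximation of the marginal of the ball kernel.
-/

namespace Pool.Agent.MP_66cee2_co.B82

open MeasureTheory Set Polynomial Pool.Agent.MP_66cee2_co.B

namespace ApA

theorem approxPow (l N : ℕ) (a x : ℝ) (ha : 0 ≤ a) (hx : 1 ≤ x) : ∃ r : ℝ[X], r.natDegree ≤ l ∧
    ∀ v : ℝ, 0 ≤ v → v ≤ 1 → |(a + 1 / 2 - v) ^ N - r.eval v| ≤
      2 * (x ^ l)⁻¹ * ((x + x⁻¹) / 4 + a) ^ N := by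
  have x0 : 0 < x := by linarith
  choose p hp hq using fun j => H12.pow_apx l j x hx
  refine ⟨(∑ j ∈ Finset.range (N + 1),
    C ((-1 / 2) ^ j * a ^ (N - j) * (N.choose j : ℝ)) * p j).comp (C 2 * X + C (-1)), ?_,
    fun v h0 h1 => ?_⟩
  · refine natDegree_comp_le.trans ?_
    have d1 : (∑ j ∈ Finset.range (N + 1),
        C ((-1 / 2) ^ j * a ^ (N - j) * (N.choose j : ℝ)) * p j).natDegree ≤ l :=
      natDegree_sum_le_of_forall_le _ _ fun j _ => (natDegree_C_mul_le _ _).trans (hp j)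
    exact (Nat.mul_le_mul d1 natDegree_linear_le).trans (by omega)
  · simp only [eval_mul, eval_C, eval_comp, eval_add, eval_X, eval_finsetSum]
    set y := 2 * v + -1 with hy
    have y1 : -1 ≤ y := by linarith
    have y2 : y ≤ 1 := by linarith
    have e1 : a + 1 / 2 - v = -1 / 2 * y + a := by rw [hy]; ring
    rw [e1, add_pow, add_pow, ← Finset.sum_sub_distrib, Finset.mul_sum]
    refine (Finset.abs_sum_le_sum_abs _ _).trans (Finset.sum_le_sum fun j _ => ?_)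
    have e : (-1 / 2 * y) ^ j * a ^ (N - j) * (N.choose j : ℝ) -
        (-1 / 2) ^ j * a ^ (N - j) * (N.choose j : ℝ) * (p j).eval y =
        (-1 / 2) ^ j * ((a ^ (N - j) * (N.choose j : ℝ)) * (y ^ j - (p j).eval y)) := by
      rw [mul_pow]; ring
    have e2 : |(-1 / 2 : ℝ)| = 1 / 2 := by rw [abs_of_neg (by norm_num)]; norm_num
    have e3 : (x + x⁻¹) / 4 = 1 / 2 * ((x + x⁻¹) / 2) := by ring
    rw [e, abs_mul, abs_mul, abs_pow, e2, abs_of_nonneg (by positivity), e3, mul_pow]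
    refine (mul_le_mul_of_nonneg_left
      (mul_le_mul_of_nonneg_left (hq j y y1 y2) (by positivity)) (by positivity)).trans
      (le_of_eq ?_)
    ring

theorem num (l : ℕ) :
    2 * (2 * ((8 : ℝ) ^ l)⁻¹ * ((8 + 8⁻¹) / 4 + (ro ^ 2 - 1 / 2)) ^ (2 * l + 2)) +
      2 * (ro ^ 2 - 1) ^ (2 * l + 2) ≤ ro ^ (4 * l + 4) * m2 l := by
  set b : ℝ := (8 + 8⁻¹) / 4 + (ro ^ 2 - 1 / 2) with hb
  have h1 : (b ^ 2 / 8) ^ l ≤ (ro ^ 4 * (3379 / 10000)) ^ l :=
    pow_le_pow_left₀ (by positivity) (by rw [hb, ro]; norm_num) l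
  have h2 : ((ro ^ 2 - 1) ^ 2) ^ l ≤ (ro ^ 4 * (3379 / 10000)) ^ l :=
    pow_le_pow_left₀ (by positivity) (by rw [ro]; norm_num) l
  have h3 : 0 ≤ (ro ^ 4 * (3379 / 10000 : ℝ)) ^ l := by positivity
  have e1 : 2 * (2 * ((8 : ℝ) ^ l)⁻¹ * b ^ (2 * l + 2)) = 4 * b ^ 2 * (b ^ 2 / 8) ^ l := by
    rw [div_pow, ← pow_mul, pow_add]; ring
  have e2 : 2 * (ro ^ 2 - 1) ^ (2 * l + 2) = 2 * (ro ^ 2 - 1) ^ 2 * ((ro ^ 2 - 1) ^ 2) ^ l := by
    rw [← pow_mul, pow_add]; ring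
  have e3 : ro ^ (4 * l + 4) * m2 l = 100 * ro ^ 4 * (ro ^ 4 * (3379 / 10000)) ^ l := by
    rw [m2, mul_pow, ← pow_mul, pow_add]; ring
  have h4 : 4 * b ^ 2 + 2 * (ro ^ 2 - 1) ^ 2 ≤ 100 * ro ^ 4 := by rw [hb, ro]; norm_num
  rw [e1, e2, e3]
  calc _ ≤ 4 * b ^ 2 * (ro ^ 4 * (3379 / 10000)) ^ l +
        2 * (ro ^ 2 - 1) ^ 2 * (ro ^ 4 * (3379 / 10000)) ^ l :=
        add_le_add (mul_le_mul_of_nonneg_left h1 (by positivity))
          (mul_le_mul_of_nonneg_left h2 (by positivity))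
    _ = (4 * b ^ 2 + 2 * (ro ^ 2 - 1) ^ 2) * (ro ^ 4 * (3379 / 10000)) ^ l := by ring
    _ ≤ _ := mul_le_mul_of_nonneg_right h4 h3

theorem tail (N : ℕ) (k s t : ℝ) (hst : t = s + 1) (h : ∀ u, s < u → u ≤ t → 1 ≤ u ^ 2) :
    |∫ u in s..t, Real.cos (k * u) * (max (ro ^ 2 - u ^ 2) 0) ^ N| ≤ (ro ^ 2 - 1) ^ N := by
  have q1 : 0 ≤ ro ^ 2 - 1 := by rw [ro]; norm_num
  have := intervalIntegral.norm_integral_le_of_norm_le_const (a := s) (b := t)
    (C := (ro ^ 2 - 1) ^ N) (f := fun u => Real.cos (k * u) * (max (ro ^ 2 - u ^ 2) 0) ^ N)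
    fun u hu => by
      rw [uIoc_of_le (by linarith)] at hu
      have := h u hu.1 hu.2
      rw [Real.norm_eq_abs, abs_mul]
      refine (mul_le_of_le_one_left (abs_nonneg _) (Real.abs_cos_le_one _)).trans ?_
      rw [abs_of_nonneg (pow_nonneg (le_max_right _ _) _)]
      exact pow_le_pow_left₀ (le_max_right _ _) (max_le (by linarith) q1) N
  rw [Real.norm_eq_abs, hst, add_sub_cancel_left, abs_one, mul_one] at this
  rwa [hst]

end ApA

theorem sAp : SAp := by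
  intro l
  have q1 : 0 ≤ ro ^ 2 - 1 := by rw [ro]; norm_num
  have q4 : ro ^ 2 ≤ 4 - 1 := by rw [ro]; norm_num
  obtain ⟨r, hr, he⟩ := ApA.approxPow l (2 * l + 2) (ro ^ 2 - 1 / 2) 8 (by linarith) (by norm_num)
  refine ⟨r, hr, fun k => le_trans ?_ (ApA.num l)⟩
  set e := 2 * ((8 : ℝ) ^ l)⁻¹ * ((8 + 8⁻¹) / 4 + (ro ^ 2 - 1 / 2)) ^ (2 * l + 2) with hedef
  have c1 : Continuous fun u : ℝ => Real.cos (k * u) * r.eval (u ^ 2) := by fun_prop
  have c2 : Continuous fun u : ℝ =>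
      Real.cos (k * u) * (max (ro ^ 2 - u ^ 2) 0) ^ (2 * l + 2) := by fun_prop
  have h2 : |(∫ u in (-1 : ℝ)..1, Real.cos (k * u) * r.eval (u ^ 2)) -
      ∫ u in (-1 : ℝ)..1, Real.cos (k * u) * (max (ro ^ 2 - u ^ 2) 0) ^ (2 * l + 2)| ≤ 2 * e := by
    rw [← intervalIntegral.integral_sub (c1.intervalIntegrable _ _) (c2.intervalIntegrable _ _)]
    have := intervalIntegral.norm_integral_le_of_norm_le_const (a := (-1 : ℝ)) (b := 1) (C := e)
      (f := fun u => Real.cos (k * u) * r.eval (u ^ 2) -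
        Real.cos (k * u) * (max (ro ^ 2 - u ^ 2) 0) ^ (2 * l + 2)) fun u hu => by
      rw [uIoc_of_le (by norm_num)] at hu
      have u1 : u ^ 2 ≤ 1 := by nlinarith [hu.1, hu.2]
      rw [← mul_sub, Real.norm_eq_abs, abs_mul, abs_sub_comm, max_eq_left (by linarith)]
      refine (mul_le_of_le_one_left (abs_nonneg _) (Real.abs_cos_le_one _)).trans ?_
      have := he (u ^ 2) (sq_nonneg u) u1
      rwa [sub_add_cancel] at this
    rw [Real.norm_eq_abs] at this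
    norm_num at this ⊢
    linarith
  have e1 : Phi (r.comp (X ^ 2)) k = ∫ u in (-1 : ℝ)..1, Real.cos (k * u) * r.eval (u ^ 2) := by
    simp only [Phi, eval_comp, eval_pow, eval_X]
  have e2 : ∫ u in (-2 : ℝ)..2, Real.cos (k * u) * (max (ro ^ 2 - u ^ 2) 0) ^ (2 * l + 2) =
      ∫ u : ℝ, Real.cos (k * u) * (max (ro ^ 2 - u ^ 2) 0) ^ (2 * l + 2) := by
    refine intervalIntegral.integral_eq_integral_of_support_subset fun u hu => ?_
    have h0 : u ^ 2 < 4 := by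
      by_contra h
      apply hu
      show Real.cos (k * u) * (max (ro ^ 2 - u ^ 2) 0) ^ (2 * l + 2) = 0
      rw [max_eq_right (by linarith)]; simp
    constructor <;> nlinarith
  have t1 := ApA.tail (2 * l + 2) k (-2) (-1) (by norm_num) fun u _ h => by nlinarith
  have t2 := ApA.tail (2 * l + 2) k 1 2 (by norm_num) fun u h _ => by nlinarith
  rw [e1, ← e2, ← intervalIntegral.integral_add_adjacent_intervals (b := -1)
    (c2.intervalIntegrable _ _) (c2.intervalIntegrable _ _),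
    ← intervalIntegral.integral_add_adjacent_intervals (a := -1) (b := 1) (c := 2)
    (c2.intervalIntegrable _ _) (c2.intervalIntegrable _ _)]
  rw [abs_le] at h2 t1 t2 ⊢
  constructor <;> linarith [h2.1, h2.2, t1.1, t1.2, t2.1, t2.2]

end Pool.Agent.MP_66cee2_co.B82
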