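import Pool.Agent.MP_66cee2_co.B82.Spec
import Pool.Agent.MP_66cee2_co.B.Hk
import Pool.Agent.MP_66cee2_co.B.Psi
import Pool.Agent.MP_66cee2_co.B.Loc

/-
Explicit base with a ball kernel: the local rank bound averaged over balls.
-/

namespace Pool.Agent.MP_66cee2_co.B82

open MeasureTheory Set Filter Metric Topology Pool.Agent.MP_66cee2_co.X
  Pool.Agent.MP_66cee2_co.B

theorem sConv2 : SConv2 := by
  obtain ⟨c, hc, hL⟩ := sLoc
  refine ⟨c, hc, fun d n Y β t φ hP hφ hb => ?_⟩
  obtain ⟨p1, p2, p3, -, -⟩ := sPsi
  have hk : ∀ s, 0 ≤ s → |psi s| ≤ 1 := fun s hs => by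
    rw [abs_of_nonneg (p2 s)]; exact (p3 s hs).1
  obtain ⟨-, -, -, -, hu⟩ := sHk d n Y β psi hP p1 hk
  have hfin : volume Y ≠ ⊤ := hP.bdd.measure_lt_top.ne
  have : IsFiniteMeasure (volume.restrict Y) := isFiniteMeasure_restrict.2 hfin
  set K : E d × E d → ℝ := fun q => psi (‖β q.1 - β q.2‖ ^ 2) with hK
  have mK : Measurable K := p1.measurable.comp
    (((hP.meas.comp measurable_fst).sub (hP.meas.comp measurable_snd)).norm.pow_const 2)
  have bK : ∀ q, 0 ≤ K q ∧ K q ≤ 1 := fun q => ⟨p2 _, (p3 _ (sq_nonneg _)).1⟩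
  set μ : Measure (E d × E d) := (volume.restrict Y).prod (volume.restrict Y) with hμ
  set F : E d × E d → E d → ℝ :=
    fun q z => (ball q.1 t ∩ ball q.2 t).indicator (fun _ => K q) z with hF
  have mF : Measurable (Function.uncurry F) := by
    have c1 : Continuous fun p : (E d × E d) × E d => dist p.2 p.1.1 := by fun_prop
    have c2 : Continuous fun p : (E d × E d) × E d => dist p.2 p.1.2 := by fun_prop
    have ho : IsOpen {p : (E d × E d) × E d | dist p.2 p.1.1 < t ∧ dist p.2 p.1.2 < t} :=
      (isOpen_lt c1 continuous_const).inter (isOpen_lt c2 continuous_const)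
    have e : Function.uncurry F =
        {p : (E d × E d) × E d | dist p.2 p.1.1 < t ∧ dist p.2 p.1.2 < t}.indicator
          fun p => K p.1 := by
      funext p
      simp only [hF, Function.uncurry, indicator, mem_inter_iff, mem_ball, mem_ofPred_eq]
    rw [e]
    exact (mK.comp measurable_fst).indicator ho.measurableSet
  have hmb : ∀ q : E d × E d, MeasurableSet (ball q.1 t ∩ ball q.2 t) := fun q =>
    measurableSet_ball.inter measurableSet_ball
  have hlt : ∀ q : E d × E d, volume (ball q.1 t ∩ ball q.2 t) ≠ ⊤ := fun q =>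
    ((measure_mono inter_subset_left).trans_lt measure_ball_lt_top).ne
  have hFz : ∀ q, ∫ z, F q z ≤ φ (q.2 - q.1) * K q := fun q => by
    simp only [hF]
    rw [integral_indicator (hmb q), setIntegral_const, smul_eq_mul]
    exact mul_le_mul_of_nonneg_right (hb _ _) (bK q).1
  have F0 : ∀ q z, 0 ≤ F q z := fun q z => indicator_nonneg (fun _ _ => (bK q).1) z
  have iG : Integrable (fun q : E d × E d => φ (q.2 - q.1) * K q) μ := by
    obtain ⟨R, hR⟩ := hP.bdd.exists_norm_le
    obtain ⟨C, hC⟩ := (isCompact_closedBall (0 : E d) (R + R)).exists_bound_of_continuousOn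
      hφ.continuousOn
    have c1 : Continuous fun q : E d × E d => φ (q.2 - q.1) := by fun_prop
    refine (integrable_const C).mono' (c1.measurable.mul mK).aestronglyMeasurable ?_
    rw [hμ, Measure.prod_restrict]
    filter_upwards [ae_restrict_mem (hP.ms.prod hP.ms)] with p hp
    rw [norm_mul, Real.norm_of_nonneg (bK p).1]
    refine (mul_le_of_le_one_right (norm_nonneg _) (bK p).2).trans (hC _ ?_)
    rw [mem_closedBall_zero_iff]
    exact (norm_sub_le _ _).trans (add_le_add (hR _ hp.2) (hR _ hp.1))
  have iF : Integrable (Function.uncurry F) (μ.prod volume) := by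
    refine (integrable_prod_iff mF.aestronglyMeasurable).2 ⟨ae_of_all _ fun q => ?_, ?_⟩
    · have h : IntegrableOn (fun _ => K q) (ball q.1 t ∩ ball q.2 t) :=
        integrableOn_const (hlt q)
      exact (integrable_indicator_iff (hmb q)).2 h
    · refine iG.mono' mF.norm.stronglyMeasurable.integral_prod_right'.aestronglyMeasurable
        (ae_of_all _ fun q => ?_)
      simp only [Function.uncurry_apply_pair, Real.norm_of_nonneg (F0 _ _)]
      rw [Real.norm_of_nonneg (integral_nonneg (F0 q))]
      exact hFz q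
  have sw : ∫ q, ∫ z, F q z ∂volume ∂μ = ∫ z, ∫ q, F q z ∂μ := integral_integral_swap iF
  have iz : Integrable fun z => ∫ q, F q z ∂μ := iF.integral_prod_right
  have e1 : ∫ z, ∫ q, F q z ∂μ ≤ ∫ w, φ w * Hk Y β psi w := by
    rw [hu _ hφ, ← sw]
    exact (integral_mono iF.integral_prod_left iG hFz).trans_eq (integral_prod _ iG)
  have e2 : ∀ z, c * (volume.real (Y ∩ ball z t)) ^ 2 ≤ (n + 2) * ∫ q, F q z ∂μ := fun z => by
    have h := hL d n ((volume.restrict Y).restrict (ball z t)) β hP.meas
    have i1 : Integrable K (((volume.restrict Y).restrict (ball z t)).prod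
        ((volume.restrict Y).restrict (ball z t))) :=
      Integrable.of_bound mK.aestronglyMeasurable 1 (ae_of_all _ fun q => by
        rw [Real.norm_of_nonneg (bK q).1]; exact (bK q).2)
    have h1 := integral_prod _ i1
    rw [Measure.prod_restrict, ← integral_indicator (measurableSet_ball.prod measurableSet_ball)]
      at h1
    have h2 : ∫ q, F q z ∂μ = ∫ q, (ball z t ×ˢ ball z t).indicator K q ∂μ := by
      refine integral_congr_ae (ae_of_all _ fun q => ?_)
      simp only [hF, indicator, mem_inter_iff, mem_ball, mem_prod, dist_comm z]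
    have h3 : ((volume.restrict Y).restrict (ball z t)).real univ =
        volume.real (Y ∩ ball z t) := by
      rw [Measure.restrict_restrict measurableSet_ball, measureReal_restrict_apply_univ,
        inter_comm]
    rw [h3] at h
    rw [h2, h1]
    exact h
  refine le_trans ?_ (mul_le_mul_of_nonneg_left e1 (by positivity))
  rw [← integral_const_mul, ← integral_const_mul]
  exact integral_mono_of_nonneg
    (ae_of_all _ fun z => mul_nonneg hc.le (sq_nonneg _)) (iz.const_mul _) (ae_of_all _ e2)

end Pool.Agent.MP_66cee2_co.B82
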