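import Pool.Agent.MP_66cee2_co.B82.Spec
import Pool.Agent.MP_66cee2_co.B.Rep
import Pool.Agent.MP_66cee2_co.B.Bo
import Pool.Agent.MP_66cee2_co.B.Hk
import Pool.Agent.MP_66cee2_co.B.Pos
import Pool.Agent.MP_66cee2_co.B.Ball
import Pool.Agent.MP_66cee2_co.B.Van
import Pool.Agent.MP_66cee2_co.B.Psi
import Pool.Agent.MP_66cee2_co.B.D1
import Pool.Agent.MP_66cee2_co.B.Der

/-
The flat bound for an arbitrary integrable kernel.
-/

namespace Pool.Agent.MP_66cee2_co.B82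

open MeasureTheory Set Filter Metric Topology Polynomial Pool.Agent.MP_66cee2_co.X
  Pool.Agent.MP_66cee2_co.B
open scoped RealInnerProductSpace

namespace FB2x

theorem est {d : ℕ} (μ : Measure (E d)) [IsFiniteMeasure μ] (ρ : ℝ[X]) {φ : E d → ℝ} {s m : ℝ}
    (hφ : Integrable φ) (hm : ∀ ξ : E d, |s * Phi ρ ‖ξ‖ - ct φ ξ| ≤ m) :
    |s * IP μ ρ 1 - ∫ ξ, ct φ ξ ∂μ| ≤ m * μ.real univ := by
  obtain ⟨hc, ⟨M, hM⟩, -⟩ := sD1 ρ
  have i1 : Integrable (fun ξ : E d => Phi ρ (‖ξ‖ * 1)) μ :=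
    (integrable_const M).mono' (hc.comp (continuous_norm.mul_const 1)).aestronglyMeasurable
      (ae_of_all _ fun ξ => hM _)
  have i2 : Integrable (ct φ) μ := RepX.ct_int hφ μ
  unfold IP
  rw [← integral_const_mul, ← integral_sub (i1.const_mul s) i2, ← Real.norm_eq_abs]
  refine norm_integral_le_of_norm_le_const (ae_of_all _ fun ξ => ?_)
  rw [mul_one]
  exact hm _

end FB2x

theorem sFB2 : SFB2 := by
  intro l n Y β φ κ m r hP hVan gi hr hm
  obtain ⟨μ₁, μ₂, f1, f2, mass, weak⟩ := sRep sBo sHk sPos _ n Y β hP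
  obtain ⟨v, hv, hb⟩ := sBall l
  obtain ⟨C, hC⟩ := sVan sHk sPsi _ n (l + 2) Y β hP hVan
  have key : ∀ t : ℝ, 0 < t →
      ∫ w, (ball (0 : E (2 * l + 3)) t).indicator (fun _ => (1 : ℝ)) w * Hk Y β psi w =
        v * (t ^ (2 * l + 3) * (IP μ₁ (rho (l + 1)) t - IP μ₂ (rho (l + 1)) t)) := by
    intro t ht
    rw [weak _ ((integrable_indicator_iff measurableSet_ball).2
      (integrableOn_const measure_ball_lt_top.ne))]
    simp only [hb t ht, integral_const_mul, IP]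
    ring
  have hder := sDer l _ μ₁ μ₂ (C / v) (fun t ht => by
    have h := hC t ht
    rw [key t (by linarith [ht.1]), key 1 one_pos, one_pow, one_mul, ← mul_sub, abs_mul,
      abs_of_pos hv] at h
    rw [div_mul_eq_mul_div, le_div_iff₀' hv]
    exact h) r hr
  have e1 := abs_le.1 (FB2x.est μ₁ _ gi hm)
  have e2 := abs_le.1 (FB2x.est μ₂ _ gi hm)
  have hm0 : 0 ≤ m := (abs_nonneg _).trans (hm 0)
  rw [weak _ gi]
  rw [hder] at e1
  have h3 := mul_le_mul_of_nonneg_left mass hm0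
  nlinarith [e1.1, e2.2]

end Pool.Agent.MP_66cee2_co.B82
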