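import Pool.Agent.MP_66cee2_co.B82.Spec

/-
Explicit base with a ball kernel: the lens bound.
-/

namespace Pool.Agent.MP_66cee2_co.B82

open MeasureTheory Set Filter Metric Topology Pool.Agent.MP_66cee2_co.X

theorem sLens : SLens := by
  intro l x y
  have r0 : 0 < ro := by norm_num [ro]
  obtain ⟨A, hA⟩ : ∃ A, A = max (ro ^ 2 - ‖y - x‖ ^ 2) 0 := ⟨_, rfl⟩
  have A0 : 0 ≤ A := hA ▸ le_max_right _ _
  have A1 : ro ^ 2 - ‖y - x‖ ^ 2 ≤ A := hA ▸ le_max_left _ _
  have A2 : √A ≤ ro := Real.sqrt_le_iff.2 ⟨r0.le, hA ▸ max_le (by nlinarith) (by positivity)⟩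
  have sub : ball x (ro / 2) ∩ ball y (ro / 2) ⊆ closedBall ((1 / 2 : ℝ) • (x + y)) (√A / 2) := by
    rintro z ⟨h1, h2⟩
    rw [mem_ball_iff_norm] at h1 h2
    rw [mem_closedBall_iff_norm]
    have e := parallelogram_law_with_norm ℝ (z - x) (z - y)
    have e1 : z - x + (z - y) = (2 : ℝ) • (z - (1 / 2 : ℝ) • (x + y)) := by module
    have e2 : z - x - (z - y) = y - x := by abel
    rw [e1, e2, norm_smul, Real.norm_ofNat] at e
    rw [le_div_iff₀ two_pos]
    refine Real.le_sqrt_of_sq_le ?_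
    nlinarith [pow_lt_pow_left₀ h1 (norm_nonneg _) two_ne_zero,
      pow_lt_pow_left₀ h2 (norm_nonneg _) two_ne_zero]
  refine (measureReal_mono sub measure_closedBall_lt_top.ne).trans ?_
  rw [Measure.addHaar_real_closedBall _ _ (by positivity), finrank_euclideanSpace_fin, Gp, ← hA]
  have e : (√A / 2) ^ (2 * l + 3) = √A / 2 / 4 ^ (l + 1) * A ^ (l + 1) := by
    rw [show 2 * l + 3 = 2 * (l + 1) + 1 by ring, pow_succ, pow_mul, div_pow, Real.sq_sqrt A0,
      div_pow]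
    norm_num
    ring
  rw [e, mul_comm, mul_div_assoc, mul_assoc]
  gcongr

end Pool.Agent.MP_66cee2_co.B82
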