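import Pool.Agent.MP_66cee2_co.B82.Spec

/-
Explicit base with a ball kernel: assembly.
-/

namespace Pool.Agent.MP_66cee2_co.B82

open MeasureTheory Set Filter Metric Topology Pool.Agent.MP_66cee2_co.X

theorem base2_of (hJ : D.SJ3) (hCov : B.SCov) (hT : D.STr) (hO : XT.RowODD) (h : SNoCov) :
    SBase2 := by
  obtain ⟨l₀, h⟩ := eventually_atTop.1 h
  refine ⟨2 * l₀ + 3, fun d n hd hn => ?_⟩
  obtain ⟨l, hl, e⟩ : ∃ l, l₀ ≤ l ∧ (d = 2 * l + 3 ∨ d = 2 * l + 3 + 1) :=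
    ⟨(d - 3) / 2, by omega, by omega⟩
  have hn' : (n : ℝ) ≤ (43 / 25) ^ (2 * l + 4) :=
    hn.trans (pow_le_pow_right₀ (by norm_num) (by omega))
  obtain ⟨R, hR, hN⟩ := h l hl
  have h1 : XT.AllIso (2 * l + 3) n := by
    refine hT _ n (by omega) fun P hP => ?_
    obtain ⟨u, hu⟩ := hJ _ n (by omega) P hP
    rcases hCov _ n (l + 2) P u R (by omega) (by omega) hP hu hR with h | ⟨Y, β, hY, hcov⟩
    · exact h
    · exact absurd hcov (hN n hn' Y β hY)
  rcases e with rfl | rfl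
  · exact h1
  · exact hO _ n (by omega) h1

end Pool.Agent.MP_66cee2_co.B82
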