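import Pool.Agent.MP_66cee2_co.B82.Spec

/-
The numerical inequality.
-/

namespace Pool.Agent.MP_66cee2_co.B82.Numb

open Filter Topology

theorem num : SNum2 := by
  intro c hc
  have t1 := tendsto_pow_const_mul_const_pow_of_abs_lt_one 2
    (r := ((43 / 25 : ℝ) ^ 2 * (3379 / 10000))) (by rw [abs_of_pos (by norm_num)]; norm_num)
  filter_upwards [t1.eventually (gt_mem_nhds (show (0 : ℝ) < c / 20000 by positivity)),
    eventually_ge_atTop 1] with l b3 hl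
  have l1 : (1 : ℝ) ≤ l := by exact_mod_cast hl
  have q1 : (1 : ℝ) ≤ ((43 / 25) ^ 2) ^ l := one_le_pow₀ (by norm_num)
  have e2 : ((43 / 25 : ℝ)) ^ (2 * l + 4) = ((43 / 25) ^ 2) ^ l * (43 / 25) ^ 4 := by
    rw [pow_add, pow_mul]
  rw [mul_pow] at b3
  have b6 : (43 / 25 : ℝ) ^ (2 * l + 4) + 2 ≤ 11 * ((43 / 25) ^ 2) ^ l := by
    rw [e2]
    nlinarith
  have b7 : (2 * l + 2) * (l + 2) * m2 l ≤ 12 * l ^ 2 * (100 * (3379 / 10000) ^ l) :=
    mul_le_mul_of_nonneg_right (by nlinarith) (by unfold m2; positivity)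
  have m0 : 0 ≤ (2 * l + 2) * (l + 2) * m2 l := by
    unfold m2
    positivity
  have p0 : (0 : ℝ) ≤ l ^ 2 * (((43 / 25) ^ 2) ^ l * (3379 / 10000) ^ l) := by positivity
  refine (mul_le_mul b6 b7 m0 (by positivity)).trans_lt ?_
  nlinarith

end Pool.Agent.MP_66cee2_co.B82.Numb
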