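import Pool.Agent.MP_66cee2_co.B82.Ct
import Pool.Agent.MP_66cee2_co.B82.Lens
import Pool.Agent.MP_66cee2_co.B82.Ap
import Pool.Agent.MP_66cee2_co.B82.Numb
import Pool.Agent.MP_66cee2_co.B82.FB2
import Pool.Agent.MP_66cee2_co.B82.Conv2
import Pool.Agent.MP_66cee2_co.B82.Dens2
import Pool.Agent.MP_66cee2_co.B82.NoCov
import Pool.Agent.MP_66cee2_co.B82.Main2
import Pool.Agent.MP_66cee2_co.B.Cov
import Pool.Agent.MP_66cee2_co.B.LevB
import Pool.Agent.MP_66cee2_co.B.NoP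
import Pool.Agent.MP_66cee2_co.B.Sgn
import Pool.Agent.MP_66cee2_co.D.AllX
import Pool.Agent.MP_66cee2_co.D.SJ3
import Pool.Agent.MP_66cee2_co.XT.TR

/-
Explicit base with the ball kernel: the theorem.
-/

namespace Pool.Agent.MP_66cee2_co.B82

theorem sBase2 : SBase2 :=
  base2_of D.sJ3 (B.sCov B.sLevB B.sSgn B.sNoP) D.sTrAll XT.rowODD
    (sNoCov sCt sLens sAp Numb.num sFB2 sConv2 sDens2)

end Pool.Agent.MP_66cee2_co.B82
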