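import Pool.Agent.MP_66cee2_co.B.Spec

/-
Explicit base with a ball kernel: definitions and statements.
-/

namespace Pool.Agent.MP_66cee2_co.B82

open MeasureTheory Set Filter Metric Topology Polynomial Pool.Agent.MP_66cee2_co.X
  Pool.Agent.MP_66cee2_co.B
open scoped RealInnerProductSpace

/-- the diameter of the averaging ball. -/
noncomputable def ro : ℝ := 309 / 200

/-- the kernel `(ro ^ 2 - |w| ^ 2)₊ ^ (l + 1)`. -/
noncomputable def Gp (l : ℕ) (w : E (2 * l + 3)) : ℝ := (max (ro ^ 2 - ‖w‖ ^ 2) 0) ^ (l + 1)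

/-- the error of the approximation. -/
noncomputable def m2 (l : ℕ) : ℝ := 100 * (3379 / 10000) ^ l

/-- cosine transform of the kernel. -/
def SCt : Prop :=
  ∀ l : ℕ, Continuous (Gp l) ∧ Integrable (Gp l) ∧ ∃ κ : ℝ, 0 ≤ κ ∧
    κ * 4 ^ l ≤ (2 * l + 2) * (l + 2) * volume.real (ball (0 : E (2 * l + 3)) 1) ∧
    ∀ ξ, ct (Gp l) ξ = κ * ∫ u : ℝ, Real.cos (‖ξ‖ * u) * (max (ro ^ 2 - u ^ 2) 0) ^ (2 * l + 2)

/-- the lens bound. -/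
def SLens : Prop :=
  ∀ (l : ℕ) (x y : E (2 * l + 3)), volume.real (ball x (ro / 2) ∩ ball y (ro / 2)) ≤
    volume.real (ball (0 : E (2 * l + 3)) 1) * (ro / 2) / 4 ^ (l + 1) * Gp l (y - x)

/-- polynomial approximation of the marginal. -/
def SAp : Prop :=
  ∀ l : ℕ, ∃ r : ℝ[X], r.natDegree ≤ l ∧ ∀ k : ℝ, |Phi (r.comp (X ^ 2)) k -
    ∫ u : ℝ, Real.cos (k * u) * (max (ro ^ 2 - u ^ 2) 0) ^ (2 * l + 2)| ≤ ro ^ (4 * l + 4) * m2 l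

def SNum2 : Prop :=
  ∀ c : ℝ, 0 < c → ∀ᶠ l : ℕ in atTop,
    ((43 / 25 : ℝ) ^ (2 * l + 4) + 2) * ((2 * l + 2) * (l + 2) * m2 l) < c

/-- the flat bound for any integrable kernel. -/
def SFB2 : Prop :=
  ∀ (l n : ℕ) (Y : Set (E (2 * l + 3))) (β : E (2 * l + 3) → E n) (φ : E (2 * l + 3) → ℝ)
    (κ m : ℝ) (r : ℝ[X]), Pre Y β → Van Y β (l + 2) → Integrable φ → r.natDegree ≤ l →
    (∀ ξ, |κ * Phi (r.comp (X ^ 2)) ‖ξ‖ - ct φ ξ| ≤ m) →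
    ∫ w, φ w * Hk Y β psi w ≤ 2 * m * volume.real Y

/-- the local rank bound averaged over balls. -/
def SConv2 : Prop :=
  ∃ c : ℝ, 0 < c ∧ ∀ (d n : ℕ) (Y : Set (E d)) (β : E d → E n) (t : ℝ) (φ : E d → ℝ),
    Pre Y β → Continuous φ → (∀ x y : E d, volume.real (ball x t ∩ ball y t) ≤ φ (y - x)) →
    c * ∫ z, (volume.real (Y ∩ ball z t)) ^ 2 ≤ (n + 2) * ∫ w, φ w * Hk Y β psi w

/-- a dense set is dense in an average ball. -/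
def SDens2 : Prop :=
  ∀ (d : ℕ) (Y : Set (E d)) (R t : ℝ), 0 < t → MeasurableSet Y → Y ⊆ ball 0 R →
    volume.real (ball (0 : E d) (R + t)) ≤ 16 * volume.real Y →
    (volume.real (ball (0 : E d) t)) ^ 2 * volume.real Y ≤
      16 * ∫ z, (volume.real (Y ∩ ball z t)) ^ 2

/-- no cover of half a large ball by four flat classes. -/
def SNoCov : Prop :=
  ∀ᶠ l : ℕ in atTop, ∃ R : ℝ, 0 < R ∧ ∀ n : ℕ, (n : ℝ) ≤ (43 / 25) ^ (2 * l + 4) →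
    ∀ (Y : Fin 4 → Set (E (2 * l + 3))) (β : Fin 4 → E (2 * l + 3) → E n),
      (∀ c, Pre (Y c) (β c) ∧ Van (Y c) (β c) (l + 2) ∧ Y c ⊆ ball 0 R) →
      ¬ volume.real (ball (0 : E (2 * l + 3)) R) ≤ 2 * volume.real (⋃ c, Y c)

/-- the theorem. -/
def SBase2 : Prop :=
  ∃ d₀ : ℕ, ∀ d n : ℕ, d₀ ≤ d → (n : ℝ) ≤ (43 / 25) ^ d → XT.AllIso d n

end Pool.Agent.MP_66cee2_co.B82
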